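import Pool.Agent.H239.KRec.MainK

/-!
# Sets of k-recurrence which fail for k commuting transformations

For every `k ≥ 2` we disprove Q2: an explicit set `digitSet k` is a set of `k`-recurrence, but for
some commuting invertible measure preserving `T 1, …, T k` on a standard Borel probability space
and some `A` of positive measure `μ (A ∩ ⋂ i, T iⁿ A) = 0` for every nonzero `n` in `digitSet k`.
-/

open MeasureTheory

universe u

namespace Pool.Agent.Results.MP_74ad1e_an.GeneralKFails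

/-- The integer powers of an invertible bimeasurable map, as bijections. -/
def zpw {X : Type u} [MeasurableSpace X] (T : X ≃ᵐ X) (n : ℤ) : Equiv.Perm X :=
  (T.toEquiv : Equiv.Perm X) ^ n

/-- Sets of `k`-recurrence. -/
def IsSetOfRecurrence (k : ℕ) (R : Set ℤ) : Prop :=
  ∀ (X : Type u) [MeasurableSpace X] (μ : Measure X) [IsProbabilityMeasure μ] (T : X ≃ᵐ X),
    MeasurePreserving T μ μ → ∀ A : Set X, MeasurableSet A → 0 < μ A →
      ∃ n ∈ R, n ≠ 0 ∧ 0 < μ (⋂ j ∈ Finset.range (k + 1), (zpw T ((j : ℤ) * n)) '' A)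

/-- The explicit set: numbers `∑ i ∈ J, ∑ c < k - 1, s i c * 6561 ^ ((k + i (k - 1) + c) ^ 2)` with
main digits `s i 0 ∈ {0, 1, 3, 4}` and auxiliary digits `s i c ∈ {0, 1}` for `1 ≤ c`, for which the
number of blocks `i ∈ J` with main digit `4` and all `k - 2` auxiliary digits `1` is not divisible
by `3`. -/
def digitSet (k : ℕ) : Set ℤ :=
  {n | ∃ (J : Finset ℕ) (s : ℕ → ℕ → ℕ),
    (∀ i ∈ J, (s i 0 = 0 ∨ s i 0 = 1 ∨ s i 0 = 3 ∨ s i 0 = 4) ∧ ∀ c, s i (c + 1) ≤ 1) ∧
    ¬ 3 ∣ (J.filter (fun i => s i 0 = 4 ∧ ∀ c < k - 2, s i (c + 1) = 1)).card ∧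
    n = ((∑ i ∈ J, ∑ c ∈ Finset.range (k - 1), s i c * 6561 ^ ((k + i * (k - 1) + c) ^ 2) : ℕ) :
      ℤ)}

open Pool.Agent.H239.KRec
open Pool.Agent.Helper406.Rec (Lam Lam_pos avg ind ind_true ind_false)
open Pool.Agent.Helper406.Rec2 (Act)

lemma mem_digitSet (r : ℕ) (n : ℤ) : n ∈ digitSet (r + 2) ↔ ∃ N : ℕ, InK r N ∧ n = N := by
  have e : ∀ (J : Finset ℕ) (s : ℕ → ℕ → ℕ),
      ∑ i ∈ J, ∑ c ∈ Finset.range (r + 2 - 1), s i c * 6561 ^ ((r + 2 + i * (r + 2 - 1) + c) ^ 2)
      = ∑ i ∈ J, ∑ c ∈ Finset.range (r + 1), s i c * Lam (ix r i c) := by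
    intro J s
    rfl
  have e' : ∀ (J : Finset ℕ) (s : ℕ → ℕ → ℕ),
      J.filter (fun i => s i 0 = 4 ∧ ∀ c < r + 2 - 2, s i (c + 1) = 1)
      = J.filter (fun i => s i 0 = 4 ∧ ∀ c ∈ Finset.range r, s i (c + 1) = 1) := by
    intro J s
    ext i
    simp
  constructor
  · rintro ⟨J, s, h1, h2, h3⟩
    rw [e'] at h2
    refine ⟨_, ⟨J, s, h1, h2, rfl⟩, ?_⟩
    rw [h3, e]
  · rintro ⟨N, ⟨J, s, h1, h2, h3⟩, h4⟩
    rw [← e'] at h2
    refine ⟨J, s, h1, h2, ?_⟩
    rw [h4, h3, e]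

/-- the action of the integers generated by the inverse map -/
def actOf {X : Type u} [MeasurableSpace X] (μ : Measure X) (T : X ≃ᵐ X)
    (hT : MeasurePreserving T μ μ) : Act μ where
  P k x := zpw T (-k) x
  zero x := by simp [zpw]
  add j k x := by
    unfold zpw
    rw [neg_add, zpow_add, Equiv.Perm.mul_apply]
  mp := by
    have hpos : ∀ n : ℕ, MeasurePreserving (zpw T (n : ℤ)) μ μ := by
      intro n
      have h : (zpw T (n : ℤ) : X → X) = T^[n] := by
        unfold zpw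
        rw [zpow_natCast]
        funext x
        rw [← Equiv.Perm.iterate_eq_pow]
        rfl
      rw [h]
      exact hT.iterate n
    have hneg : ∀ n : ℕ, MeasurePreserving (zpw T (-(n : ℤ))) μ μ := by
      intro n
      have h : (zpw T (-(n : ℤ)) : X → X) = T.symm^[n] := by
        unfold zpw
        rw [zpow_neg, zpow_natCast, ← inv_pow]
        funext x
        rw [← Equiv.Perm.iterate_eq_pow]
        rfl
      rw [h]
      exact (hT.symm T).iterate n
    intro k
    obtain ⟨n, rfl | rfl⟩ := Int.eq_nat_or_neg k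
    · exact hneg n
    · rw [neg_neg]
      exact hpos n

theorem kRecurrence (r : ℕ) : IsSetOfRecurrence.{u} (r + 2) (digitSet (r + 2)) := by
  intro X _ μ _ T hT A hA hpos
  obtain ⟨N, hN, hpos'⟩ := positivity_K μ (actOf μ T hT) hA hpos r
  refine ⟨(N : ℤ), (mem_digitSet r _).2 ⟨N, hN, rfl⟩, ?_, ?_⟩
  · have := inK_pos hN
    exact_mod_cast this.ne'
  · have h1 : {x | ∀ l ∈ Finset.range (r + 2 + 1), (actOf μ T hT).P ((l : ℤ) * N) x ∈ A} ⊆
        ⋂ j ∈ Finset.range (r + 2 + 1), (zpw T ((j : ℤ) * (N : ℤ))) '' A := by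
      intro x hx
      simp only [Set.mem_iInter]
      intro j hj
      refine ⟨(actOf μ T hT).P ((j : ℤ) * N) x, hx j hj, ?_⟩
      show zpw T ((j : ℤ) * (N : ℤ)) (zpw T (-((j : ℤ) * N)) x) = x
      unfold zpw
      rw [← Equiv.Perm.mul_apply, ← zpow_add, add_neg_cancel, zpow_zero]
      rfl
    refine lt_of_lt_of_le ?_ (measure_mono h1)
    unfold nzk Measure.real at hpos'
    exact (ENNReal.toReal_pos_iff.1 hpos').1

lemma emG_ge (r M : ℕ) (F : Fin (r + 2) → (Fin (r + 2) → DV) → ZMod 9) (g : Fin (r + 2) → ZMod 9)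
    (π : (Fin (r + 2) → ℤ) →+ (Fin (r + 2) → ZMod (Lam (ix r M 0))))
    (c : ℝ) (hd : c ≤ avg (fun x => ind (AK r M F g x))) :
    ENNReal.ofReal c ≤ emG (coG π (AK r M F g)) (cyG 0) := by
  classical
  rw [emG_apply _ (cyG_clopen 0).1.measurableSet]
  have h1 : (Finset.univ.filter fun x => coG π (AK r M F g) x ∈ cyG 0)
      = Finset.univ.filter fun x => AK r M F g x := by
    ext x
    simp only [Finset.mem_filter, Finset.mem_univ, true_and]
    have h2 := coG_iff π (AK r M F g) x 0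
    rw [map_zero, add_zero] at h2
    exact h2
  rw [h1]
  have h2 : avg (fun x => ind (AK r M F g x))
      = ((Finset.univ.filter fun x => AK r M F g x).card : ℝ)
        / (Fintype.card (Fin (r + 2) → ZMod (Lam (ix r M 0))) : ℝ) := by
    unfold avg
    congr 1
    rw [Finset.card_filter]
    push_cast
    apply Finset.sum_congr rfl
    intro x _
    by_cases hx : AK r M F g x
    · rw [ind_true hx, if_pos hx]
    · rw [ind_false hx, if_neg hx]
  rw [h2] at hd
  have hc : (0:ℝ) < (Fintype.card (Fin (r + 2) → ZMod (Lam (ix r M 0))) : ℝ) := by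
    exact_mod_cast Fintype.card_pos
  have h3 : (((Fintype.card (Fin (r + 2) → ZMod (Lam (ix r M 0))) : ℕ) : ENNReal))⁻¹ *
      ((Finset.univ.filter fun x => AK r M F g x).card : ENNReal)
      = ENNReal.ofReal (((Finset.univ.filter fun x => AK r M F g x).card : ℝ)
        / (Fintype.card (Fin (r + 2) → ZMod (Lam (ix r M 0))) : ℝ)) := by
    rw [ENNReal.ofReal_div_of_pos hc, ENNReal.ofReal_natCast, ENNReal.ofReal_natCast, mul_comm,
      div_eq_mul_inv]
  rw [h3]
  exact ENNReal.ofReal_le_ofReal hd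

theorem failure (r : ℕ) :
    ∃ (X : Type) (_ : MeasurableSpace X) (_ : StandardBorelSpace X) (μ : Measure X)
      (_ : IsProbabilityMeasure μ) (T : Fin (r + 2) → (X ≃ᵐ X)) (A : Set X),
      (∀ i, MeasurePreserving (T i) μ μ) ∧ (∀ i j x, T i (T j x) = T j (T i x)) ∧
      MeasurableSet A ∧ 0 < μ A ∧
      ∀ n ∈ digitSet (r + 2), n ≠ 0 → μ (A ∩ ⋂ i, (zpw (T i) n) '' A) = 0 := by
  obtain ⟨F, hF⟩ := wg_det r
  obtain ⟨μ, hμ, h1, h3, h4⟩ := limit_G (G := Fin (r + 2) → ℤ)
    (fun l => Pi.single l 1) (InK r)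
    (ENNReal.ofReal (1 / 2 / (9 : ℝ) ^ (r + 2)))
    (ENNReal.ofReal_pos.2 (by positivity)) (by
      intro M
      obtain ⟨g, hd⟩ := exists_dense_K r M F
      let π : (Fin (r + 2) → ℤ) →+ (Fin (r + 2) → ZMod (Lam (ix r M 0))) :=
        { toFun := fun z l => (z l : ZMod (Lam (ix r M 0)))
          map_zero' := by funext l; simp
          map_add' := by intro a b; funext l; simp }
      refine ⟨Fin (r + 2) → ZMod (Lam (ix r M 0)), inferInstance, inferInstance, π,
        AK r M F g, emG_ge r M F g π _ hd, fun n hn hM x hx => ?_⟩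
      apply no_corner_K r M F hF g n hn hM x
      refine ⟨hx.1, fun l => ?_⟩
      have h5 := hx.2 l
      have h6 : π (n • Pi.single l 1) = Pi.single l (n : ZMod (Lam (ix r M 0))) := by
        funext a
        show (((n • (Pi.single l 1 : Fin (r + 2) → ℤ)) a : ℤ) : ZMod (Lam (ix r M 0))) = _
        rw [Pi.smul_apply]
        by_cases hal : a = l
        · subst hal
          rw [Pi.single_eq_same, Pi.single_eq_same]
          simp
        · rw [Pi.single_eq_of_ne hal, Pi.single_eq_of_ne hal]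
          simp
      rw [h6] at h5
      exact h5)
  refine ⟨(Fin (r + 2) → ℤ) → Bool, inferInstance, inferInstance, μ, hμ,
    fun l => shG (Pi.single l 1), cyG 0, fun i => h1 _, fun i j x => shG_comm _ _ x,
    (cyG_clopen 0).1.measurableSet, h3, ?_⟩
  intro n hn _
  obtain ⟨N, hN, rfl⟩ := (mem_digitSet r n).1 hn
  have e1 : ∀ l : Fin (r + 2), (zpw (shG (Pi.single l (1 : ℤ) : Fin (r + 2) → ℤ)) (N : ℤ)) '' cyG 0
      = cyG (N • (Pi.single l (1 : ℤ) : Fin (r + 2) → ℤ)) := by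
    intro l
    unfold zpw
    rw [zpow_natCast]
    exact shG_image _ N
  simp only [e1]
  exact h4 N hN

/-- **Q2 is false for every `k ≥ 2`.** -/
theorem result (k : ℕ) (hk : 2 ≤ k) :
    IsSetOfRecurrence.{u} k (digitSet k) ∧
    ∃ (X : Type) (_ : MeasurableSpace X) (_ : StandardBorelSpace X) (μ : Measure X)
      (_ : IsProbabilityMeasure μ) (T : Fin k → (X ≃ᵐ X)) (A : Set X),
      (∀ i, MeasurePreserving (T i) μ μ) ∧ (∀ i j x, T i (T j x) = T j (T i x)) ∧
      MeasurableSet A ∧ 0 < μ A ∧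
      ∀ n ∈ digitSet k, n ≠ 0 → μ (A ∩ ⋂ i, (zpw (T i) n) '' A) = 0 := by
  obtain ⟨r, rfl⟩ := Nat.exists_eq_add_of_le hk
  rw [Nat.add_comm 2 r]
  exact ⟨kRecurrence r, failure r⟩

end Pool.Agent.Results.MP_74ad1e_an.GeneralKFails
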